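import Pool.Agent.H1.CT.Final

/-!
# MP_5bfe9a_gt: compact Lorentzian manifolds conformal to constant curvature are complete

If `M` is compact, `g` is Lorentzian and `e^{2f} g` has constant sectional curvature, then `g` is
geodesically complete. The proof contains a proof of the theorem of Carrière and Klingler (the
case of constant `f`).
-/

namespace Pool.Agent.Results.MP_5bfe9a_gt.ConformalSectionalComplete

open scoped Manifold ContDiff
open Pool.MP_5bfe9a_gt

theorem result {V : Type*} [NormedAddCommGroup V] [NormedSpace ℝ V] [FiniteDimensional ℝ V]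
    (hdim : 2 ≤ Module.finrank ℝ V)
    {M : Type*} [TopologicalSpace M] [T2Space M] [CompactSpace M]
    [ChartedSpace V M] [IsManifold 𝓘(ℝ, V) ∞ M]
    (g : TensorField V M) (f : M → ℝ) (K : ℝ)
    (hg : IsLorentzMetric g) (hf : ContMDiff 𝓘(ℝ, V) 𝓘(ℝ, ℝ) ∞ f)
    (hK : HasSectionalCurvature (fun x u v => Real.exp (2 * f x) * g x u v) K) :
    GeodesicallyComplete g :=
  Pool.H1.Lor.CT.conformal_complete_sectional hdim g f K hg hf hK

end Pool.Agent.Results.MP_5bfe9a_gt.ConformalSectionalComplete
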